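import Mathlib
import Pool.Agent.Helper38.EQ.Discr

/-! The discriminant of a product of quadratic polynomials. -/

namespace Pool.Agent.Helper80.SC

open Polynomial

theorem monic_quad {R : Type} [CommRing R] (a b : R) : ((X + C a) ^ 2 - C b).Monic := by
  nontriviality R
  refine ((monic_X_add_C a).pow 2).sub_of_left ?_
  refine degree_C_le.trans_lt ?_
  have h1 : ((X + C a) ^ 2 : R[X]).degree = ((2 : ℕ) : WithBot ℕ) := by
    rw [degree_eq_natDegree ((monic_X_add_C a).pow 2).ne_zero, (monic_X_add_C a).natDegree_pow,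
      natDegree_X_add_C]
  rw [h1]
  exact_mod_cast (by norm_num : (0 : ℕ) < 2)

theorem natDegree_quad {R : Type} [CommRing R] [Nontrivial R] (a b : R) :
    ((X + C a) ^ 2 - C b).natDegree = 2 := by
  rw [natDegree_sub_C, (monic_X_add_C a).natDegree_pow, natDegree_X_add_C]

private theorem eval_deriv {R : Type} [CommRing R] {m : ℕ} (a b : Fin m → R) (i : Fin m) (s : R)
    (hs : s ^ 2 = b i) :
    (∏ i, ((X + C (a i)) ^ 2 - C (b i))).derivative.eval (-a i + s) =
      2 * s * ∏ j ∈ Finset.univ.filter (fun j => j ≠ i), ((a j - a i + s) ^ 2 - b j) := by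
  classical
  rw [derivative_prod_finset, eval_finsetSum]
  rw [Finset.sum_eq_single i]
  · rw [eval_mul, eval_prod]
    simp only [derivative_sub, derivative_pow, derivative_add, derivative_X, derivative_C,
      eval_sub, eval_add, eval_mul, eval_pow, eval_X, eval_C, eval_zero, eval_one]
    have h1 : ∏ j ∈ Finset.univ.erase i, ((-a i + s + a j) ^ 2 - b j) =
        ∏ j ∈ Finset.univ.filter (fun j => j ≠ i), ((a j - a i + s) ^ 2 - b j) := by
      refine Finset.prod_congr ?_ fun j _ => ?_
      · ext j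
        simp
      · ring
    rw [h1]
    norm_num
    ring
  · intro k _ hk
    rw [eval_mul, eval_prod, Finset.prod_eq_zero (i := i)]
    · simp
    · simp [hk.symm]
    · simp [hs]
  · intro h
    exact absurd (Finset.mem_univ i) h

/-- The discriminant of a product of monic quadratic polynomials, up to a unit. -/
theorem discr_quad {R : Type} [CommRing R] [IsDomain R] {m : ℕ} (hm : 0 < m) (a b : Fin m → R) :
    Associated (∏ i, ((X + C (a i)) ^ 2 - C (b i))).discr
      (4 ^ m * (∏ i, b i) *
        (∏ i, ∏ j ∈ Finset.univ.filter (fun j => j ≠ i),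
          (((a j - a i) ^ 2 + b i - b j) ^ 2 - 4 * (a j - a i) ^ 2 * b i))) := by
  classical
  set f : R[X] := ∏ i, ((X + C (a i)) ^ 2 - C (b i)) with hf
  have hmon : f.Monic := monic_prod_of_monic _ _ fun i _ => monic_quad (a i) (b i)
  have hdeg : f.natDegree = 2 * m := by
    rw [hf, natDegree_prod_of_monic _ _ fun i _ => monic_quad (a i) (b i)]
    simp only [natDegree_quad, Finset.sum_const, Finset.card_univ, Fintype.card_fin,
      smul_eq_mul]
    ring
  let L := AlgebraicClosure (FractionRing R)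
  let φ : R →+* L := (algebraMap (FractionRing R) L).comp (algebraMap R (FractionRing R))
  have hφ : Function.Injective φ :=
    (algebraMap (FractionRing R) L).injective.comp (IsFractionRing.injective R (FractionRing R))
  have hs : ∀ i, ∃ s : L, s ^ 2 = φ (b i) := fun i => IsAlgClosed.exists_pow_nat_eq _ two_pos
  choose s hs using hs
  set g : L[X] := f.map φ with hg
  have hg1 : g = ∏ i, ((X + C (φ (a i))) ^ 2 - C (φ (b i))) := by
    rw [hg, hf, Polynomial.map_prod]
    simp
  have hg2 : g = (∏ i, (X - C (-φ (a i) + s i))) * ∏ i, (X - C (-φ (a i) - s i)) := by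
    rw [hg1, ← Finset.prod_mul_distrib]
    refine Finset.prod_congr rfl fun i _ => ?_
    rw [← hs i, C_pow, C_sub, C_add, C_neg]
    ring
  have hgm : g.Monic := hmon.map φ
  have hgd : g.natDegree = 2 * m := by rw [hg, hmon.natDegree_map, hdeg]
  have hpos : 0 < g.degree := by
    rw [← natDegree_pos_iff_degree_pos, hgd]
    omega
  have h1 := resultant_deriv hpos
  have hr : ∀ r : Fin m → L, (∏ i, (X - C (r i)) : L[X]).roots = Finset.univ.val.map r := by
    intro r
    have := roots_multiset_prod_X_sub_C (Finset.univ.val.map r)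
    rw [Multiset.map_map] at this
    exact this
  have hroots : g.roots = Finset.univ.val.map (fun i => -φ (a i) + s i) +
      Finset.univ.val.map fun i => -φ (a i) - s i := by
    rw [hg2, roots_mul, hr, hr]
    rw [← hg2]
    exact hgm.ne_zero
  have hsplits : g.Splits := IsAlgClosed.splits g
  have h2 := resultant_eq_prod_eval g g.derivative (g.natDegree - 1)
    (natDegree_derivative_le g) hsplits
  rw [h1, hgm.leadingCoeff, one_pow, one_mul, mul_one, hroots, Multiset.map_add,
    Multiset.prod_add, Multiset.map_map, Multiset.map_map] at h2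
  have h4 : (Multiset.map ((fun x => eval x g.derivative) ∘ fun i => -φ (a i) + s i)
      Finset.univ.val).prod =
      ∏ i, (2 * s i * ∏ j ∈ Finset.univ.filter (fun j => j ≠ i),
        ((φ (a j) - φ (a i) + s i) ^ 2 - φ (b j))) := by
    change ∏ i, (eval (-φ (a i) + s i) g.derivative) = _
    refine Finset.prod_congr rfl fun i _ => ?_
    rw [hg1]
    exact eval_deriv (fun i => φ (a i)) (fun i => φ (b i)) i (s i) (hs i)
  have h5 : (Multiset.map ((fun x => eval x g.derivative) ∘ fun i => -φ (a i) - s i)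
      Finset.univ.val).prod =
      ∏ i, (2 * (-s i) * ∏ j ∈ Finset.univ.filter (fun j => j ≠ i),
        ((φ (a j) - φ (a i) + -s i) ^ 2 - φ (b j))) := by
    change ∏ i, (eval (-φ (a i) - s i) g.derivative) = _
    refine Finset.prod_congr rfl fun i _ => ?_
    rw [hg1, sub_eq_add_neg]
    exact eval_deriv (fun i => φ (a i)) (fun i => φ (b i)) i (-s i) (by rw [neg_sq, hs])
  rw [h4, h5, ← Finset.prod_mul_distrib] at h2
  have h6 : ∏ i, (2 * s i * (∏ j ∈ Finset.univ.filter (fun j => j ≠ i),
        ((φ (a j) - φ (a i) + s i) ^ 2 - φ (b j))) *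
      (2 * (-s i) * ∏ j ∈ Finset.univ.filter (fun j => j ≠ i),
        ((φ (a j) - φ (a i) + -s i) ^ 2 - φ (b j)))) =
      (-1) ^ m * (4 ^ m * (∏ i, φ (b i)) *
        (∏ i, ∏ j ∈ Finset.univ.filter (fun j => j ≠ i),
          (((φ (a j) - φ (a i)) ^ 2 + φ (b i) - φ (b j)) ^ 2 -
            4 * (φ (a j) - φ (a i)) ^ 2 * φ (b i)))) := by
    have h7 : ∀ i, (2 * s i * (∏ j ∈ Finset.univ.filter (fun j => j ≠ i),
        ((φ (a j) - φ (a i) + s i) ^ 2 - φ (b j))) *
      (2 * (-s i) * ∏ j ∈ Finset.univ.filter (fun j => j ≠ i),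
        ((φ (a j) - φ (a i) + -s i) ^ 2 - φ (b j)))) =
      (-1) * (4 * φ (b i) *
        (∏ j ∈ Finset.univ.filter (fun j => j ≠ i),
          (((φ (a j) - φ (a i)) ^ 2 + φ (b i) - φ (b j)) ^ 2 -
            4 * (φ (a j) - φ (a i)) ^ 2 * φ (b i)))) := by
      intro i
      have h8 : ∀ j, (((φ (a j) - φ (a i)) ^ 2 + φ (b i) - φ (b j)) ^ 2 -
            4 * (φ (a j) - φ (a i)) ^ 2 * φ (b i)) =
          ((φ (a j) - φ (a i) + s i) ^ 2 - φ (b j)) *
            ((φ (a j) - φ (a i) + -s i) ^ 2 - φ (b j)) := by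
        intro j
        rw [← hs i]
        ring
      rw [Finset.prod_congr rfl fun j _ => h8 j, Finset.prod_mul_distrib, ← hs i]
      ring
    rw [Finset.prod_congr rfl fun i _ => h7 i]
    simp only [Finset.prod_mul_distrib, Finset.prod_const, Finset.card_univ, Fintype.card_fin]
  rw [h6] at h2
  have h8 : φ ((-1) ^ (g.natDegree * (g.natDegree - 1) / 2) * f.discr) =
      φ ((-1) ^ m * (4 ^ m * (∏ i, b i) *
        (∏ i, ∏ j ∈ Finset.univ.filter (fun j => j ≠ i),
          (((a j - a i) ^ 2 + b i - b j) ^ 2 - 4 * (a j - a i) ^ 2 * b i)))) := by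
    have h9 : g.discr = φ f.discr :=
      Pool.Agent.Helper38.EQ.discr_map φ f hmon (by rw [hdeg]; omega)
    simp only [map_mul, map_pow, map_prod, map_sub, map_add, map_neg, map_one, map_ofNat]
    rw [← h9]
    exact h2
  have h10 := hφ h8
  have hu1 : IsUnit ((-1 : R) ^ (g.natDegree * (g.natDegree - 1) / 2)) := isUnit_one.neg.pow _
  have hu2 : IsUnit ((-1 : R) ^ m) := isUnit_one.neg.pow _
  have a1 := associated_unit_mul_left f.discr _ hu1
  have a2 := associated_unit_mul_left (4 ^ m * (∏ i, b i) *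
        (∏ i, ∏ j ∈ Finset.univ.filter (fun j => j ≠ i),
          (((a j - a i) ^ 2 + b i - b j) ^ 2 - 4 * (a j - a i) ^ 2 * b i))) _ hu2
  rw [h10] at a1
  exact a1.symm.trans a2

end Pool.Agent.Helper80.SC
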